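import Pool.Agent.Q80.KT.Stm

/-! The squeeze: asymptotic independence of the balls of two connected vertices. -/

open Finset MeasureTheory Filter Topology
open scoped Classical

noncomputable section

namespace Q139.KT.SQ

open Pool.Agent.Q80.KT Pool.Agent.Q287.SR

theorem ind_nonneg (P : Prop) : 0 ≤ ind P := by unfold ind; split_ifs <;> norm_num

theorem ind_le_one (P : Prop) : ind P ≤ 1 := by unfold ind; split_ifs <;> norm_num

theorem ind_mono {P Q : Prop} (h : P → Q) : ind P ≤ ind Q := by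
  unfold ind
  by_cases hP : P
  · rw [if_pos hP, if_pos (h hP)]
  · rw [if_neg hP]; split_ifs <;> norm_num

theorem ind_true {P : Prop} (h : P) : ind P = 1 := if_pos h

theorem ind_false {P : Prop} (h : ¬ P) : ind P = 0 := if_neg h

theorem bm_mul {n : ℕ} {v : Fin n} {r : ℕ} {f g : SimpleGraph (Fin n) → ℝ} (hf : BM v r f) (hg : BM v r g) :
    BM v r (fun G => f G * g G) := fun G G' h1 h2 h3 => by
  show f G * g G = f G' * g G'
  rw [hf G G' h1 h2 h3, hg G G' h1 h2 h3]

theorem bm_card {n : ℕ} (v : Fin n) (r : ℕ) (Q : ℕ → Prop) : BM v r (fun G => ind (Q (ball G v r).card)) :=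
  fun G G' h1 _ _ => by
    show ind (Q (ball G v r).card) = ind (Q (ball G' v r).card)
    rw [h1]

theorem bm_compl {n : ℕ} {v : Fin n} {r : ℕ} {f : SimpleGraph (Fin n) → ℝ} (hf : BM v r f) :
    BM v r (fun G => 1 - f G) := fun G G' h1 h2 h3 => by
  show 1 - f G = 1 - f G'
  rw [hf G G' h1 h2 h3]

/-- the constant -/
def Cc (r : ℕ) : ℝ := ∑ i ∈ Finset.range (r + 1), ((i : ℝ) + r + 1) * 2 ^ (i + r)

theorem Cc_nonneg (r : ℕ) : 0 ≤ Cc r := Finset.sum_nonneg fun i _ => by positivity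

theorem card_ball_le {n : ℕ} (G : SimpleGraph (Fin n)) (v : Fin n) (r : ℕ) :
    (ball G v r).card ≤ ∑ i ∈ Finset.range (r + 1), (sph G v i).card := by
  refine le_trans (Finset.card_le_card (t := (Finset.range (r + 1)).biUnion fun i => sph G v i) ?_)
    Finset.card_biUnion_le
  intro w hw
  simp only [ball, Finset.mem_filter, Finset.mem_univ, true_and] at hw
  simp only [Finset.mem_biUnion, Finset.mem_range, sph, Finset.mem_filter, Finset.mem_univ, true_and]
  exact ⟨G.dist v w, by omega, hw.1, rfl⟩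

theorem moment (h5 : S_TRIP) {n : ℕ} {p : ℝ} (h0 : 0 ≤ p) (h1 : p ≤ 1) (hnp : n * p ≤ 2) (v : Fin n) (r M : ℕ) :
    (M : ℝ) * Ex n p (fun G => ind (M < (ball G v r).card) * (sph G v r).card) ≤ Cc r := by
  rw [← Ex_mul]
  refine le_trans (Ex_mono h0 h1 (g := fun G => ∑ i ∈ Finset.range (r + 1),
    ((sph G v i).card : ℝ) * (sph G v r).card) ?_) ?_
  · intro G
    show (M : ℝ) * (ind (M < (ball G v r).card) * (sph G v r).card) ≤ _
    rw [← Finset.sum_mul]
    by_cases h : M < (ball G v r).card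
    · rw [ind_true h, one_mul]
      refine mul_le_mul_of_nonneg_right ?_ (Nat.cast_nonneg _)
      have := card_ball_le G v r
      exact_mod_cast (by omega : M ≤ ∑ i ∈ Finset.range (r + 1), (sph G v i).card)
    · rw [ind_false h, zero_mul, mul_zero]
      positivity
  · rw [Ex_sum]
    refine Finset.sum_le_sum fun i _ => ?_
    exact h5 n p v i r h0 h1 hnp

theorem tau_nonneg {n : ℕ} {p : ℝ} (h0 : 0 ≤ p) (h1 : p ≤ 1) : 0 ≤ tau n p := by
  unfold tau
  split_ifs
  · exact Ex_nonneg h0 h1 fun G => ind_nonneg _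
  · exact le_rfl

/-- disjoint balls, connected -/
def Dj {n : ℕ} (v w : Fin n) (r : ℕ) (G : SimpleGraph (Fin n)) : Prop :=
  Disjoint (ball G v r) (ball G w r) ∧ G.Reachable v w

theorem self_mem {n : ℕ} (G : SimpleGraph (Fin n)) (v : Fin n) (r : ℕ) : v ∈ ball G v r := by
  simp [ball]

theorem upper (h2 : S_ONE) (h3 : S_TWO) (h5 : S_TRIP) {n : ℕ} {p : ℝ} (h0 : 0 ≤ p) (h1 : p < 1)
    (hnp : n * p ≤ 2) {v w : Fin n} {r : ℕ} (hr : 1 ≤ r) {M : ℕ} (hM : 1 ≤ M)
    {X Y : SimpleGraph (Fin n) → ℝ}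
    (hX0 : ∀ G, 0 ≤ X G) (hX1 : ∀ G, X G ≤ 1) (hY0 : ∀ G, 0 ≤ Y G) (hY1 : ∀ G, Y G ≤ 1)
    (hX : BM v r X) (hY : BM w r Y) {x y : ℝ}
    (hx : Ex n p (fun G => X G * (sph G v r).card) ≤ x)
    (hy : Ex n p (fun G => Y G * (sph G w r).card) ≤ y) :
    Ex n p (fun G => X G * Y G * ind (Dj v w r G)) ≤
      ((1 - p) ^ (M ^ 2))⁻¹ * (x * y * tau n p) + 2 * (Cc r / M * tau n p) := by
  have hp1 : p ≤ 1 := h1.le
  have hτ := tau_nonneg (n := n) h0 hp1
  have hMpos : (0 : ℝ) < M := by exact_mod_cast hM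
  have key : ∀ G : SimpleGraph (Fin n), X G * Y G * ind (Dj v w r G) ≤
      ((X G * ind ((ball G v r).card ≤ M)) * (Y G * ind ((ball G w r).card ≤ M)) *
        ind (Disjoint (ball G v r) (ball G w r) ∧ G.Reachable v w) +
      ind (M < (ball G v r).card) * ind (w ∉ ball G v r ∧ G.Reachable v w)) +
      ind (M < (ball G w r).card) * ind (v ∉ ball G w r ∧ G.Reachable w v) := by
    intro G
    have hXY : 0 ≤ X G * Y G := mul_nonneg (hX0 G) (hY0 G)
    have hXY1 : X G * Y G ≤ 1 := mul_le_one₀ (hX1 G) (hY0 G) (hY1 G)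
    have a1 := ind_nonneg (w ∉ ball G v r ∧ G.Reachable v w)
    have a2 := ind_nonneg (v ∉ ball G w r ∧ G.Reachable w v)
    have a3 := ind_nonneg (M < (ball G v r).card)
    have a4 := ind_nonneg (M < (ball G w r).card)
    have a5 := ind_nonneg ((ball G v r).card ≤ M)
    have a6 := ind_nonneg ((ball G w r).card ≤ M)
    have a7 := ind_nonneg (Disjoint (ball G v r) (ball G w r) ∧ G.Reachable v w)
    have b1 : X G * Y G * ind (Dj v w r G) ≤ ind (w ∉ ball G v r ∧ G.Reachable v w) := by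
      refine le_trans (mul_le_of_le_one_left (ind_nonneg _) hXY1) (ind_mono fun h => ⟨?_, h.2⟩)
      intro hw
      exact (Finset.disjoint_left.1 h.1 hw) (self_mem G w r)
    have b2 : X G * Y G * ind (Dj v w r G) ≤ ind (v ∉ ball G w r ∧ G.Reachable w v) := by
      refine le_trans (mul_le_of_le_one_left (ind_nonneg _) hXY1) (ind_mono fun h => ⟨?_, h.2.symm⟩)
      intro hv
      exact (Finset.disjoint_left.1 h.1 (self_mem G v r)) hv
    have c0 : 0 ≤ (X G * ind ((ball G v r).card ≤ M)) * (Y G * ind ((ball G w r).card ≤ M)) *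
        ind (Disjoint (ball G v r) (ball G w r) ∧ G.Reachable v w) :=
      mul_nonneg (mul_nonneg (mul_nonneg (hX0 G) a5) (mul_nonneg (hY0 G) a6)) a7
    by_cases hv : (ball G v r).card ≤ M
    · by_cases hw : (ball G w r).card ≤ M
      · rw [ind_true hv, ind_true hw, mul_one, mul_one]
        have : X G * Y G * ind (Dj v w r G) =
          X G * Y G * ind (Disjoint (ball G v r) (ball G w r) ∧ G.Reachable v w) := rfl
        rw [this]
        have e1 := mul_nonneg a3 a1
        have e2 := mul_nonneg a4 a2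
        linarith
      · have : ind (M < (ball G w r).card) = 1 := ind_true (by omega)
        rw [this, one_mul]
        have e1 := mul_nonneg a3 a1
        linarith
    · have : ind (M < (ball G v r).card) = 1 := ind_true (by omega)
      rw [this, one_mul]
      have e2 := mul_nonneg a4 a2
      linarith
  have hle := Ex_mono h0 hp1 key
  rw [Ex_add, Ex_add] at hle
  -- first term
  have t1 : Ex n p (fun G => (X G * ind ((ball G v r).card ≤ M)) * (Y G * ind ((ball G w r).card ≤ M)) *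
        ind (Disjoint (ball G v r) (ball G w r) ∧ G.Reachable v w)) ≤
      ((1 - p) ^ (M ^ 2))⁻¹ * (x * y * tau n p) := by
    have h := h3 n p v w r M (fun G => X G * ind ((ball G v r).card ≤ M))
      (fun G => Y G * ind ((ball G w r).card ≤ M)) h0 h1 hr
      (fun G => mul_nonneg (hX0 G) (ind_nonneg _)) (fun G => mul_nonneg (hY0 G) (ind_nonneg _))
      (bm_mul hX (bm_card v r fun m => m ≤ M)) (bm_mul hY (bm_card w r fun m => m ≤ M))
      (fun G hG => by rw [ind_false (by omega), mul_zero])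
      (fun G hG => by rw [ind_false (by omega), mul_zero])
    have hpos : 0 < (1 - p) ^ (M ^ 2) := pow_pos (by linarith) _
    have e1 : Ex n p (fun G => (X G * ind ((ball G v r).card ≤ M)) * (sph G v r).card) ≤ x := by
      refine le_trans (Ex_mono h0 hp1 fun G => ?_) hx
      exact mul_le_mul_of_nonneg_right (mul_le_of_le_one_right (hX0 G) (ind_le_one _)) (Nat.cast_nonneg _)
    have e2 : Ex n p (fun G => (Y G * ind ((ball G w r).card ≤ M)) * (sph G w r).card) ≤ y := by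
      refine le_trans (Ex_mono h0 hp1 fun G => ?_) hy
      exact mul_le_mul_of_nonneg_right (mul_le_of_le_one_right (hY0 G) (ind_le_one _)) (Nat.cast_nonneg _)
    have e3 : 0 ≤ Ex n p (fun G => (Y G * ind ((ball G w r).card ≤ M)) * (sph G w r).card) :=
      Ex_nonneg h0 hp1 fun G => mul_nonneg (mul_nonneg (hY0 G) (ind_nonneg _)) (Nat.cast_nonneg _)
    have e0 : 0 ≤ Ex n p (fun G => (X G * ind ((ball G v r).card ≤ M)) * (sph G v r).card) :=
      Ex_nonneg h0 hp1 fun G => mul_nonneg (mul_nonneg (hX0 G) (ind_nonneg _)) (Nat.cast_nonneg _)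
    have e4 := mul_le_mul_of_nonneg_right (mul_le_mul e1 e2 e3 (e0.trans e1)) hτ
    have e5 := h.trans e4
    rw [inv_mul_eq_div, le_div_iff₀ hpos]
    exact e5
  have t2 : Ex n p (fun G => ind (M < (ball G v r).card) * ind (w ∉ ball G v r ∧ G.Reachable v w)) ≤
      Cc r / M * tau n p := by
    have h := h2 n p v w r (fun G => ind (M < (ball G v r).card)) h0 hp1 hr (fun G => ind_nonneg _)
      (bm_card v r fun m => M < m)
    refine h.trans (mul_le_mul_of_nonneg_right ?_ hτ)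
    rw [le_div_iff₀ hMpos, mul_comm]
    exact moment h5 h0 hp1 hnp v r M
  have t3 : Ex n p (fun G => ind (M < (ball G w r).card) * ind (v ∉ ball G w r ∧ G.Reachable w v)) ≤
      Cc r / M * tau n p := by
    have h := h2 n p w v r (fun G => ind (M < (ball G w r).card)) h0 hp1 hr (fun G => ind_nonneg _)
      (bm_card w r fun m => M < m)
    refine h.trans (mul_le_mul_of_nonneg_right ?_ hτ)
    rw [le_div_iff₀ hMpos, mul_comm]
    exact moment h5 h0 hp1 hnp w r M
  linarith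

/-- the algebra -/
theorem alg {a P τ U c E q11 q12 q21 q22 D R : ℝ} (ha0 : 0 ≤ a) (haP : a ≤ P) (hP : P ≤ 2) (hτ : 0 ≤ τ)
    (hU : 1 ≤ U) (hc : 0 ≤ c)
    (b11 : q11 ≤ U * (a * a * τ) + 2 * (c * τ))
    (b12 : q12 ≤ U * (a * (P - a) * τ) + 2 * (c * τ))
    (b21 : q21 ≤ U * ((P - a) * a * τ) + 2 * (c * τ))
    (b22 : q22 ≤ U * ((P - a) * (P - a) * τ) + 2 * (c * τ))
    (hD : q11 + q12 + q21 + q22 = D) (hDE : τ - E ≤ D) (hE : 0 ≤ E) (hR : |R| ≤ 4 * E) :
    |(1 - a) ^ 2 * q11 - a * (1 - a) * q12 - a * (1 - a) * q21 + a ^ 2 * q22 + R| ≤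
      τ * (4 * (1 - P) ^ 2 + 9 * (|U * P ^ 2 - 1| + (U - 1) * P ^ 2 + 6 * c)) + 13 * E := by
  have hP0 : 0 ≤ P := ha0.trans haP
  have hb0 : 0 ≤ P - a := by linarith
  have hbP : P - a ≤ P := by linarith
  set B := τ * (|U * P ^ 2 - 1| + (U - 1) * P ^ 2 + 6 * c) + E with hB
  have habs := abs_nonneg (U * P ^ 2 - 1)
  have habs1 := le_abs_self (U * P ^ 2 - 1)
  have hτabs := mul_le_mul_of_nonneg_left habs1 hτ
  have hτabs0 := mul_nonneg hτ habs
  have hUP : 0 ≤ (U - 1) * P ^ 2 := mul_nonneg (by linarith) (sq_nonneg _)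
  have hτUP := mul_nonneg hτ hUP
  have hτc := mul_nonneg hτ hc
  have haa : 0 ≤ a * a := mul_nonneg ha0 ha0
  have hab : 0 ≤ a * (P - a) := mul_nonneg ha0 hb0
  have hbb : 0 ≤ (P - a) * (P - a) := mul_nonneg hb0 hb0
  have u : ∀ z : ℝ, 0 ≤ z → z ≤ P ^ 2 → τ * ((U - 1) * z) ≤ τ * ((U - 1) * P ^ 2) := fun z _ hz =>
    mul_le_mul_of_nonneg_left (mul_le_mul_of_nonneg_left hz (by linarith)) hτ
  have l : ∀ z : ℝ, 0 ≤ z → 0 ≤ τ * ((U - 1) * z) := fun z hz => mul_nonneg hτ (mul_nonneg (by linarith) hz)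
  have saa : a * a ≤ P ^ 2 := by nlinarith
  have sab : a * (P - a) ≤ P ^ 2 := by nlinarith
  have sbb : (P - a) * (P - a) ≤ P ^ 2 := by nlinarith
  have uaa := u _ haa saa
  have uab := u _ hab sab
  have ubb := u _ hbb sbb
  have laa := l _ haa
  have lab := l _ hab
  have lbb := l _ hbb
  have e11 : |q11 - τ * (a * a)| ≤ B := by
    rw [abs_le]
    constructor
    · nlinarith
    · nlinarith
  have e12 : |q12 - τ * (a * (P - a))| ≤ B := by
    rw [abs_le]
    constructor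
    · nlinarith
    · nlinarith
  have e21 : |q21 - τ * (a * (P - a))| ≤ B := by
    rw [abs_le]
    constructor
    · nlinarith
    · nlinarith
  have e22 : |q22 - τ * ((P - a) * (P - a))| ≤ B := by
    rw [abs_le]
    constructor
    · nlinarith
    · nlinarith
  have hid : (1 - a) ^ 2 * q11 - a * (1 - a) * q12 - a * (1 - a) * q21 + a ^ 2 * q22 + R =
      τ * (a ^ 2 * (1 - P) ^ 2) + (1 - a) ^ 2 * (q11 - τ * (a * a)) +
        (-(a * (1 - a)) * (q12 - τ * (a * (P - a)))) + (-(a * (1 - a)) * (q21 - τ * (a * (P - a)))) +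
        a ^ 2 * (q22 - τ * ((P - a) * (P - a))) + R := by ring
  have hB0 : 0 ≤ B := (abs_nonneg _).trans e11
  have ha2 : a ≤ 2 := haP.trans hP
  have f0 : |τ * (a ^ 2 * (1 - P) ^ 2)| ≤ τ * (4 * (1 - P) ^ 2) := by
    rw [abs_of_nonneg (by positivity)]
    refine mul_le_mul_of_nonneg_left (mul_le_mul_of_nonneg_right (by nlinarith) (sq_nonneg _)) hτ
  have f1 : |(1 - a) ^ 2 * (q11 - τ * (a * a))| ≤ 1 * B := by
    rw [abs_mul]
    refine mul_le_mul ?_ e11 (abs_nonneg _) (by norm_num)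
    rw [abs_of_nonneg (sq_nonneg _)]
    nlinarith
  have f2 : |(-(a * (1 - a)) * (q12 - τ * (a * (P - a))))| ≤ 2 * B := by
    rw [abs_mul]
    refine mul_le_mul ?_ e12 (abs_nonneg _) (by norm_num)
    rw [abs_le]
    constructor <;> nlinarith
  have f3 : |(-(a * (1 - a)) * (q21 - τ * (a * (P - a))))| ≤ 2 * B := by
    rw [abs_mul]
    refine mul_le_mul ?_ e21 (abs_nonneg _) (by norm_num)
    rw [abs_le]
    constructor <;> nlinarith
  have f4 : |a ^ 2 * (q22 - τ * ((P - a) * (P - a)))| ≤ 4 * B := by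
    rw [abs_mul]
    refine mul_le_mul ?_ e22 (abs_nonneg _) (by norm_num)
    rw [abs_of_nonneg (sq_nonneg _)]
    nlinarith
  rw [hid]
  have g := (abs_add_le (τ * (a ^ 2 * (1 - P) ^ 2) + (1 - a) ^ 2 * (q11 - τ * (a * a)) +
        (-(a * (1 - a)) * (q12 - τ * (a * (P - a)))) + (-(a * (1 - a)) * (q21 - τ * (a * (P - a)))) +
        a ^ 2 * (q22 - τ * ((P - a) * (P - a)))) R)
  have g1 := (abs_add_le (τ * (a ^ 2 * (1 - P) ^ 2) + (1 - a) ^ 2 * (q11 - τ * (a * a)) +
        (-(a * (1 - a)) * (q12 - τ * (a * (P - a)))) + (-(a * (1 - a)) * (q21 - τ * (a * (P - a)))))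
        (a ^ 2 * (q22 - τ * ((P - a) * (P - a)))))
  have g2 := (abs_add_le (τ * (a ^ 2 * (1 - P) ^ 2) + (1 - a) ^ 2 * (q11 - τ * (a * a)) +
        (-(a * (1 - a)) * (q12 - τ * (a * (P - a))))) (-(a * (1 - a)) * (q21 - τ * (a * (P - a)))))
  have g3 := (abs_add_le (τ * (a ^ 2 * (1 - P) ^ 2) + (1 - a) ^ 2 * (q11 - τ * (a * a)))
        (-(a * (1 - a)) * (q12 - τ * (a * (P - a)))))
  have g4 := (abs_add_le (τ * (a ^ 2 * (1 - P) ^ 2)) ((1 - a) ^ 2 * (q11 - τ * (a * a))))
  have : τ * (4 * (1 - P) ^ 2) + 9 * B + 4 * E =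
      τ * (4 * (1 - P) ^ 2 + 9 * (|U * P ^ 2 - 1| + (U - 1) * P ^ 2 + 6 * c)) + 13 * E := by
    rw [hB]; ring
  linarith

theorem rem_le {n : ℕ} (G : SimpleGraph (Fin n)) (v w : Fin n) (r : ℕ) :
    ind (G.Reachable v w) - ind (Dj v w r G) ≤ ind (w ∈ ball G v (2 * r)) := by
  by_cases hR : G.Reachable v w
  · by_cases hD : Disjoint (ball G v r) (ball G w r)
    · have : ind (Dj v w r G) = 1 := ind_true ⟨hD, hR⟩
      rw [this, ind_true hR, sub_self]
      exact ind_nonneg _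
    · rw [Finset.not_disjoint_iff] at hD
      obtain ⟨z, hz1, hz2⟩ := hD
      simp only [ball, Finset.mem_filter, Finset.mem_univ, true_and] at hz1 hz2
      obtain ⟨p, hp⟩ := hz1.1.exists_walk_length_eq_dist
      obtain ⟨q, hq⟩ := hz2.1.exists_walk_length_eq_dist
      have hd : G.dist v w ≤ 2 * r := by
        refine (SimpleGraph.dist_le (p.append q.reverse)).trans ?_
        rw [SimpleGraph.Walk.length_append, SimpleGraph.Walk.length_reverse]
        omega
      have hmem : w ∈ ball G v (2 * r) := by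
        simp only [ball, Finset.mem_filter, Finset.mem_univ, true_and]
        exact ⟨hR, hd⟩
      rw [ind_true hmem, ind_true hR]
      have := ind_nonneg (Dj v w r G)
      linarith
  · rw [ind_false hR]
    have := ind_nonneg (Dj v w r G)
    have := ind_nonneg (w ∈ ball G v (2 * r))
    linarith

theorem abs_Ex_le {n : ℕ} {p : ℝ} (h0 : 0 ≤ p) (h1 : p ≤ 1) {f g : SimpleGraph (Fin n) → ℝ}
    (h : ∀ G, |f G| ≤ g G) : |Ex n p f| ≤ Ex n p g := by
  rw [abs_le]
  constructor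
  · have : Ex n p (fun G => (-1) * g G) ≤ Ex n p f := Ex_mono h0 h1 fun G => by
      have := (abs_le.1 (h G)).1
      linarith
    rw [Ex_mul] at this
    linarith
  · exact Ex_mono h0 h1 fun G => (abs_le.1 (h G)).2

theorem Ex_lin {n : ℕ} (p c1 c2 c3 c4 : ℝ) (f1 f2 f3 f4 f5 : SimpleGraph (Fin n) → ℝ) :
    Ex n p (fun G => c1 * f1 G + c2 * f2 G + c3 * f3 G + c4 * f4 G + f5 G) =
      c1 * Ex n p f1 + c2 * Ex n p f2 + c3 * Ex n p f3 + c4 * Ex n p f4 + Ex n p f5 := by
  rw [Ex_add, Ex_add, Ex_add, Ex_add, Ex_mul, Ex_mul, Ex_mul, Ex_mul]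

theorem key (h1 : S_BM) (h2 : S_ONE) (h3 : S_TWO) (h4 : S_PATH) (h5 : S_TRIP) (h6 : S_TAU)
    {k : ℕ} (F : SimpleGraph (Fin k)) (u : Fin k) {r : ℕ} (hr : 1 ≤ r) {n : ℕ} {p : ℝ} (h0 : 0 ≤ p)
    (hp1 : p < 1) (hnp : n * p ≤ 2) (hP : (n * p) ^ r ≤ 2) {M : ℕ} (hM : 1 ≤ M) {v w : Fin n} (hvw : v ≠ w) :
    |Ex n p (fun G => ind (G.Reachable v w) * ((ind (BallIso F u G v r) - aN F u r n p) *
      (ind (BallIso F u G w r) - aN F u r n p)))| ≤
      tau n p * (4 * (1 - (n * p) ^ r) ^ 2 + 9 * (|((1 - p) ^ (M ^ 2))⁻¹ * ((n * p) ^ r) ^ 2 - 1| +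
        (((1 - p) ^ (M ^ 2))⁻¹ - 1) * ((n * p) ^ r) ^ 2 + 6 * (Cc r / M))) +
      13 * Pr n p (fun G => w ∈ ball G v (2 * r)) := by
  have hp1' : p ≤ 1 := hp1.le
  set a := aN F u r n p with ha
  set P := (n * p) ^ r with hPdef
  have mA : ∀ v : Fin n, Ex n p (fun G => ind (BallIso F u G v r) * (sph G v r).card) = a :=
    fun v => (h6 n p).2 k F u r v
  have mS : ∀ v : Fin n, Ex n p (fun G => ((sph G v r).card : ℝ)) ≤ P := fun v => (h4 n p v r h0 hp1').1
  have mC : ∀ v : Fin n, Ex n p (fun G => (1 - ind (BallIso F u G v r)) * (sph G v r).card) ≤ P - a := by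
    intro v
    have e : Ex n p (fun G => ind (BallIso F u G v r) * (sph G v r).card) +
        Ex n p (fun G => (1 - ind (BallIso F u G v r)) * (sph G v r).card) =
        Ex n p (fun G => ((sph G v r).card : ℝ)) := by
      rw [← Ex_add]
      congr 1
      funext G
      ring
    have := mA v
    have := mS v
    linarith
  have ha0 : 0 ≤ a := by
    rw [← mA v]
    exact Ex_nonneg h0 hp1' fun G => mul_nonneg (ind_nonneg _) (Nat.cast_nonneg _)
  have haP : a ≤ P := by
    rw [← mA v]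
    refine le_trans (Ex_mono h0 hp1' fun G => ?_) (mS v)
    exact mul_le_of_le_one_left (Nat.cast_nonneg _) (ind_le_one _)
  have hτ := tau_nonneg (n := n) h0 hp1'
  have hU : 1 ≤ ((1 - p) ^ (M ^ 2))⁻¹ := by
    refine (one_le_inv₀ (pow_pos (by linarith) _)).2 (pow_le_one₀ (by linarith) (by linarith))
  have hc : 0 ≤ Cc r / M := div_nonneg (Cc_nonneg r) (Nat.cast_nonneg _)
  have bA : ∀ v : Fin n, BM v r fun G => ind (BallIso F u G v r) := fun v => (h1 n v r hr).2.1 k F u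
  have bC : ∀ v : Fin n, BM v r fun G => 1 - ind (BallIso F u G v r) := fun v => bm_compl (bA v)
  have nA : ∀ (v : Fin n) (G : SimpleGraph (Fin n)), 0 ≤ ind (BallIso F u G v r) := fun v G => ind_nonneg _
  have oA : ∀ (v : Fin n) (G : SimpleGraph (Fin n)), ind (BallIso F u G v r) ≤ 1 := fun v G => ind_le_one _
  have nC : ∀ (v : Fin n) (G : SimpleGraph (Fin n)), 0 ≤ 1 - ind (BallIso F u G v r) := fun v G => by
    have := oA v G
    linarith
  have oC : ∀ (v : Fin n) (G : SimpleGraph (Fin n)), 1 - ind (BallIso F u G v r) ≤ 1 := fun v G => by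
    have := nA v G
    linarith
  have q11 := upper h2 h3 h5 h0 hp1 hnp hr hM (nA v) (oA v) (nA w) (oA w) (bA v) (bA w) (mA v).le (mA w).le
  have q12 := upper h2 h3 h5 h0 hp1 hnp hr hM (nA v) (oA v) (nC w) (oC w) (bA v) (bC w) (mA v).le (mC w)
  have q21 := upper h2 h3 h5 h0 hp1 hnp hr hM (nC v) (oC v) (nA w) (oA w) (bC v) (bA w) (mC v) (mA w).le
  have q22 := upper h2 h3 h5 h0 hp1 hnp hr hM (nC v) (oC v) (nC w) (oC w) (bC v) (bC w) (mC v) (mC w)
  have hsum : Ex n p (fun G => ind (BallIso F u G v r) * ind (BallIso F u G w r) * ind (Dj v w r G)) +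
      Ex n p (fun G => ind (BallIso F u G v r) * (1 - ind (BallIso F u G w r)) * ind (Dj v w r G)) +
      Ex n p (fun G => (1 - ind (BallIso F u G v r)) * ind (BallIso F u G w r) * ind (Dj v w r G)) +
      Ex n p (fun G => (1 - ind (BallIso F u G v r)) * (1 - ind (BallIso F u G w r)) * ind (Dj v w r G)) =
      Ex n p (fun G => ind (Dj v w r G)) := by
    rw [← Ex_add, ← Ex_add, ← Ex_add]
    congr 1
    funext G
    ring
  have hτR : Ex n p (fun G => ind (G.Reachable v w)) = tau n p := (h6 n p).1 v w hvw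
  have hDE : tau n p - Pr n p (fun G => w ∈ ball G v (2 * r)) ≤ Ex n p (fun G => ind (Dj v w r G)) := by
    have e : Ex n p (fun G => ind (G.Reachable v w)) ≤
        Ex n p (fun G => ind (Dj v w r G) + ind (w ∈ ball G v (2 * r))) := Ex_mono h0 hp1' fun G => by
      have := rem_le G v w r
      show ind (G.Reachable v w) ≤ ind (Dj v w r G) + ind (w ∈ ball G v (2 * r))
      linarith
    rw [Ex_add, hτR] at e
    have : Pr n p (fun G => w ∈ ball G v (2 * r)) = Ex n p (fun G => ind (w ∈ ball G v (2 * r))) := rfl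
    linarith
  have hE : 0 ≤ Pr n p (fun G => w ∈ ball G v (2 * r)) := Ex_nonneg h0 hp1' fun G => ind_nonneg _
  have ha2 : a ≤ 2 := haP.trans hP
  have hR : |Ex n p (fun G => (ind (G.Reachable v w) - ind (Dj v w r G)) *
      ((ind (BallIso F u G v r) - a) * (ind (BallIso F u G w r) - a)))| ≤
      4 * Pr n p (fun G => w ∈ ball G v (2 * r)) := by
    have : 4 * Pr n p (fun G => w ∈ ball G v (2 * r)) =
        Ex n p (fun G => 4 * ind (w ∈ ball G v (2 * r))) := by
      rw [Ex_mul]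
      rfl
    rw [this]
    refine abs_Ex_le h0 hp1' fun G => ?_
    have r1 := rem_le G v w r
    have r0 : 0 ≤ ind (G.Reachable v w) - ind (Dj v w r G) := by
      have : ind (Dj v w r G) ≤ ind (G.Reachable v w) := ind_mono fun h => h.2
      linarith
    have s1 : |ind (BallIso F u G v r) - a| ≤ 2 := by
      have := nA v G
      have := oA v G
      rw [abs_le]
      constructor <;> linarith
    have s2 : |ind (BallIso F u G w r) - a| ≤ 2 := by
      have := nA w G
      have := oA w G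
      rw [abs_le]
      constructor <;> linarith
    rw [abs_mul, abs_mul, abs_of_nonneg r0]
    have s3 : |ind (BallIso F u G v r) - a| * |ind (BallIso F u G w r) - a| ≤ 2 * 2 :=
      mul_le_mul s1 s2 (abs_nonneg _) (by norm_num)
    calc (ind (G.Reachable v w) - ind (Dj v w r G)) *
          (|ind (BallIso F u G v r) - a| * |ind (BallIso F u G w r) - a|) ≤
          ind (w ∈ ball G v (2 * r)) * (2 * 2) :=
        mul_le_mul r1 s3 (mul_nonneg (abs_nonneg _) (abs_nonneg _)) (ind_nonneg _)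
      _ = 4 * ind (w ∈ ball G v (2 * r)) := by ring
  have hT : Ex n p (fun G => ind (G.Reachable v w) * ((ind (BallIso F u G v r) - a) *
      (ind (BallIso F u G w r) - a))) =
      (1 - a) ^ 2 * Ex n p (fun G => ind (BallIso F u G v r) * ind (BallIso F u G w r) * ind (Dj v w r G)) -
      a * (1 - a) * Ex n p (fun G => ind (BallIso F u G v r) * (1 - ind (BallIso F u G w r)) *
        ind (Dj v w r G)) -
      a * (1 - a) * Ex n p (fun G => (1 - ind (BallIso F u G v r)) * ind (BallIso F u G w r) *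
        ind (Dj v w r G)) +
      a ^ 2 * Ex n p (fun G => (1 - ind (BallIso F u G v r)) * (1 - ind (BallIso F u G w r)) *
        ind (Dj v w r G)) +
      Ex n p (fun G => (ind (G.Reachable v w) - ind (Dj v w r G)) *
        ((ind (BallIso F u G v r) - a) * (ind (BallIso F u G w r) - a))) := by
    have e := Ex_lin (n := n) p ((1 - a) ^ 2) (-(a * (1 - a))) (-(a * (1 - a))) (a ^ 2)
      (fun G => ind (BallIso F u G v r) * ind (BallIso F u G w r) * ind (Dj v w r G))
      (fun G => ind (BallIso F u G v r) * (1 - ind (BallIso F u G w r)) * ind (Dj v w r G))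
      (fun G => (1 - ind (BallIso F u G v r)) * ind (BallIso F u G w r) * ind (Dj v w r G))
      (fun G => (1 - ind (BallIso F u G v r)) * (1 - ind (BallIso F u G w r)) * ind (Dj v w r G))
      (fun G => (ind (G.Reachable v w) - ind (Dj v w r G)) *
        ((ind (BallIso F u G v r) - a) * (ind (BallIso F u G w r) - a)))
    have e2 : Ex n p (fun G => ind (G.Reachable v w) * ((ind (BallIso F u G v r) - a) *
      (ind (BallIso F u G w r) - a))) = Ex n p (fun G => (1 - a) ^ 2 * (ind (BallIso F u G v r) *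
        ind (BallIso F u G w r) * ind (Dj v w r G)) +
      (-(a * (1 - a))) * (ind (BallIso F u G v r) * (1 - ind (BallIso F u G w r)) * ind (Dj v w r G)) +
      (-(a * (1 - a))) * ((1 - ind (BallIso F u G v r)) * ind (BallIso F u G w r) * ind (Dj v w r G)) +
      a ^ 2 * ((1 - ind (BallIso F u G v r)) * (1 - ind (BallIso F u G w r)) * ind (Dj v w r G)) +
      (ind (G.Reachable v w) - ind (Dj v w r G)) *
        ((ind (BallIso F u G v r) - a) * (ind (BallIso F u G w r) - a))) := by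
      congr 1
      funext G
      ring
    rw [e2, e]
    ring
  rw [hT]
  exact alg ha0 haP hP hτ hU hc q11 q12 q21 q22 hsum hDE hE hR

theorem t_SQ (h1 : S_BM) (h2 : S_ONE) (h3 : S_TWO) (h4 : S_PATH) (h5 : S_TRIP) (h6 : S_TAU) : S_SQ := by
  intro k F u r p hr hp hnp hτ ε hε
  -- the choice of `M`
  obtain ⟨M, hM1, hM⟩ : ∃ M : ℕ, 1 ≤ M ∧ 9 * (6 * (Cc r / M)) ≤ ε / 4 := by
    refine ⟨⌈216 * Cc r / ε⌉₊ + 1, by omega, ?_⟩
    have h : 216 * Cc r / ε ≤ ((⌈216 * Cc r / ε⌉₊ + 1 : ℕ) : ℝ) := by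
      push_cast
      have := Nat.le_ceil (216 * Cc r / ε)
      linarith
    have hpos : (0 : ℝ) < ((⌈216 * Cc r / ε⌉₊ + 1 : ℕ) : ℝ) := by positivity
    rw [div_le_iff₀ hε] at h
    have : Cc r / ((⌈216 * Cc r / ε⌉₊ + 1 : ℕ) : ℝ) ≤ ε / 216 := by
      rw [div_le_iff₀ hpos]
      linarith
    linarith
  have hp0 : Tendsto p atTop (𝓝 0) := by
    have h : Tendsto (fun n : ℕ => (n : ℝ) * p n / n) atTop (𝓝 0) :=
      hnp.div_atTop tendsto_natCast_atTop_atTop
    refine h.congr' ?_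
    filter_upwards [eventually_ge_atTop 1] with n hn
    have : (n : ℝ) ≠ 0 := by positivity
    field_simp
  have hP : Tendsto (fun n : ℕ => ((n : ℝ) * p n) ^ r) atTop (𝓝 1) := by
    simpa using hnp.pow r
  have hU : Tendsto (fun n : ℕ => ((1 - p n) ^ (M ^ 2))⁻¹) atTop (𝓝 1) := by
    have := ((tendsto_const_nhds (x := (1 : ℝ))).sub hp0).pow (M ^ 2)
    simpa using this.inv₀ (by simp)
  have hlim : Tendsto (fun n : ℕ => 4 * (1 - ((n : ℝ) * p n) ^ r) ^ 2 +
      9 * (|((1 - p n) ^ (M ^ 2))⁻¹ * (((n : ℝ) * p n) ^ r) ^ 2 - 1| +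
        (((1 - p n) ^ (M ^ 2))⁻¹ - 1) * (((n : ℝ) * p n) ^ r) ^ 2)) atTop (𝓝 0) := by
    have a1 := (((tendsto_const_nhds (x := (1 : ℝ))).sub hP).pow 2).const_mul 4
    have a2 := ((hU.mul (hP.pow 2)).sub_const 1).abs
    have a3 := (hU.sub_const 1).mul (hP.pow 2)
    have := a1.add ((a2.add a3).const_mul 9)
    simpa using this
  have hZ : Tendsto (fun n : ℕ => ∑ j ∈ Finset.range (2 * r + 1), ((n : ℝ) * p n) ^ j) atTop
      (𝓝 (∑ j ∈ Finset.range (2 * r + 1), (1 : ℝ) ^ j)) :=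
    tendsto_finsetSum _ fun j _ => hnp.pow j
  have hZ' : (∑ j ∈ Finset.range (2 * r + 1), (1 : ℝ) ^ j) < 2 * r + 2 := by
    simp
  filter_upwards [hp, hnp.eventually (eventually_le_nhds (by norm_num : (1 : ℝ) < 2)),
    hP.eventually (eventually_le_nhds (by norm_num : (1 : ℝ) < 2)),
    hlim.eventually (eventually_le_nhds (by positivity : (0 : ℝ) < ε / 4)),
    hZ.eventually (eventually_le_nhds hZ'), hτ.eventually_ge_atTop (52 * (2 * r + 2) / ε),
    eventually_ge_atTop 1] with n hn hn2 hP2 hl hz ht hn1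
  intro v w hvw
  refine (key h1 h2 h3 h4 h5 h6 F u hr hn.1 hn.2 hn2 hP2 hM1 hvw).trans ?_
  have hτ0 := tau_nonneg (n := n) hn.1 hn.2.le
  have hnpos : (0 : ℝ) < n := by exact_mod_cast hn1
  have hE := (h4 n (p n) v 0 hn.1 hn.2.le).2 w hvw.symm (2 * r)
  have hE2 : 13 * Pr n (p n) (fun G => w ∈ ball G v (2 * r)) ≤ ε / 4 * tau n (p n) := by
    rw [div_le_iff₀ hε] at ht
    have e : 13 * Pr n (p n) (fun G => w ∈ ball G v (2 * r)) * n ≤ ε / 4 * tau n (p n) * n := by
      nlinarith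
    exact le_of_mul_le_mul_right e hnpos
  have hm : tau n (p n) * (4 * (1 - ((n : ℝ) * p n) ^ r) ^ 2 +
      9 * (|((1 - p n) ^ (M ^ 2))⁻¹ * (((n : ℝ) * p n) ^ r) ^ 2 - 1| +
        (((1 - p n) ^ (M ^ 2))⁻¹ - 1) * (((n : ℝ) * p n) ^ r) ^ 2 + 6 * (Cc r / M))) ≤
      tau n (p n) * (ε / 2) := by
    refine mul_le_mul_of_nonneg_left ?_ hτ0
    linarith
  nlinarith [mul_nonneg hε.le hτ0]

end Q139.KT.SQ
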